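import Pool.Agent.MTO.Stmts
import Pool.Agent.MT100GO.All
import Pool.Agent.Helper74_MTN.Few

/-! MTO (few constants, even weight), row FNE: assembly, from the Hodge side at algebraic points (MAE)
and the l-adic side over the rings of integers to the final theorem FewEStmt (edit of
`Helper74_MTN/Few.lean`). -/

set_option autoImplicit false

namespace Pool.Agent.MTO.H20

open Matrix Polynomial NumberField Pool.Agent.MT100 Pool.Agent.MT100G Pool.Agent.MT100A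
  Pool.Agent.MT100D Pool.Agent.Helper78_MT Pool.Agent.Helper46_MT Pool.Agent.MTF Pool.Agent.MTL
  Pool.Agent.MTN Pool.Agent.MTN.H53 Pool.Agent.HIK Pool.Agent.MT100GO

universe u v

/-- the Mumford-Tate group at the large algebraic points, rational structure `s • P` -/
theorem mte (hM : MaeStmt.{u}) (d : Type) [Fintype d] [DecidableEq d] (F : Family d) (w : ℕ)
    (lev : d → ℕ) (P : Matrix d d ℂ) (m κ : ℕ) (c : Fin m → ℂ) (s : ℂ) (hw : Even w)
    (hP : IsUnit P.det) (hs : s ≠ 0)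
    (hc : ∀ i j, IsAlgebraic (IntermediateField.adjoin ℚ (Set.range c)) (s * P i j))
    (hκ : ∀ p ≤ w, Fintype.card {a // lev a = p ∨ lev a = w - p} ≤ κ)
    (h5 : 5 ≤ Fintype.card d) (hlt : 2 * (m + (if F.N = 0 then 0 else 1)) + κ < Fintype.card d)
    (e A : ℕ) : ∃ R0 : ℝ, ∀ x ∈ Pool.Agent.MTN.Pts e A, R0 ≤ ‖x‖ →
      ∀ (E : Matrix d d ℚ) (V : ℕ → Submodule ℂ (d → ℂ)),
      PolHodge w E V → F.HasFil lev P x V → SoDense (F.Mo P) E →
      ∀ (K : Type u) [Field K] [CharZero K], mtGroup w V K = simO E K := by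
  obtain ⟨R0, hR0⟩ := hM d F w lev hw (s • P) (MTF.H20.isUnit_smul hs hP) m c hc κ hκ
    (by omega) hlt e A
  refine ⟨R0, fun x hx hxR E V hV hF hD K _ _ => ?_⟩
  exact hR0 x hx hxR E V hV (MTF.H20.hasFil_smul F hs lev P x V hF)
    (by rw [MTF.H20.Mo_smul F hs hP]; exact hD) K

/-- the form is symmetric -/
theorem symE {d : Type} [Fintype d] [DecidableEq d] {w : ℕ} (hw : Even w) {E : Matrix d d ℚ}
    {V : ℕ → Submodule ℂ (d → ℂ)} (hV : PolHodge w E V) : Eᵀ = E := by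
  rw [hV.symm, hw.neg_one_pow, one_smul]

theorem fne (hM : MaeStmt.{u}) (hPth : PthStmt) (hPid : PidStmt) (hSml : SmlStmt)
    (hDzc : DzcStmt) (hBox : BoxStmt) (hFin : HIK.FinStmt.{u}) : FewEStmt.{u, v} := by
  intro d _ _ F w lev P m κ c s hw hP hs hc hκ h5 hlt
  have h1 := mte hM d F w lev P m κ c s hw hP hs hc hκ h5 hlt
  refine ⟨?_, ?_⟩
  · intro e A
    obtain ⟨R0, hR0⟩ := h1 e A
    refine ⟨R0, fun x hx hxR E V hV hD => ?_⟩
    have hMT : ∀ (K : Type u) [Field K] [CharZero K], mtGroup w V K = simO E K :=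
      fun K _ _ => hR0 x hx hxR E V hV.1 hV.2.2 hD K
    refine ⟨hMT, ?_⟩
    intro ℓ _ Γ _ ρ hρ K _ _ _
    rw [hMT K]
    exact lad_all.{u, v} d E ℚ_[ℓ] Γ ρ (symE hw hV.1) hV.1.nondeg h5 hρ K
  · intro ρ hρ k _ _ σ
    -- the points of `Pts`
    obtain ⟨R0, hR0⟩ := h1 (Module.finrank ℚ k) (2 * Module.finrank ℚ k + 2)
    obtain ⟨H0, hH0⟩ := hPth k σ
    obtain ⟨hsub, huni, hfin, -⟩ := hDzc k
    obtain ⟨H1, hH1⟩ : ∃ H1 : ℕ, max (max H0 1) (max R0 0 ^ 2) ≤ H1 := exists_nat_ge _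
    have hS1 : DZ k {a : 𝓞 k | ‖σ (a : k)‖ < house (a : k) ^ (1 / 2 : ℝ)} :=
      hSml k σ (1 / 2) (by norm_num) (by norm_num)
    have hS2 : DZ k {a : 𝓞 k | house (a : k) ≤ H1} := by
      obtain ⟨C, hC⟩ := hBox k
      exact hfin _ (hC H1).1
    -- the sets for the primes
    have hS3 : ∀ ℓ : ℕ, ∃ S : Set (𝓞 k), DZ k S ∧ ∀ [Fact ℓ.Prime], ∀ a ∉ S,
        ∀ (ψ : k →+* QB) (ρa : HIK.Stab (ψ a) →* GL d ℚ_[ℓ]), SpecializesAt (ρ ℓ) (ψ a) ρa →
          ∀ (K : Type u) [Field K] [Algebra ℚ_[ℓ] K], monodromy ρa K = monodromy (ρ ℓ) K := by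
      intro ℓ
      by_cases hℓ : ℓ.Prime
      · have : Fact ℓ.Prime := ⟨hℓ⟩
        obtain ⟨S, hS, h2⟩ := hFin k d ℓ (ρ ℓ) (hρ ℓ)
        exact ⟨S, hS, fun a ha ψ ρa h => h2 a ha ψ ρa h⟩
      · refine ⟨∅, hfin _ Set.finite_empty, ?_⟩
        intro h
        exact absurd h.out hℓ
    choose S hS hS' using hS3
    obtain ⟨T, N, hT, hTN⟩ := hPid k S hS
    refine ⟨T ∪ ({a : 𝓞 k | ‖σ (a : k)‖ < house (a : k) ^ (1 / 2 : ℝ)} ∪
      {a : 𝓞 k | house (a : k) ≤ H1}), N, ?_, ?_⟩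
    · have h2 := huni (Fin 3) (fun i => match i with
        | 0 => T
        | 1 => {a : 𝓞 k | ‖σ (a : k)‖ < house (a : k) ^ (1 / 2 : ℝ)}
        | 2 => {a : 𝓞 k | house (a : k) ≤ H1}) (by
          intro i
          match i with
          | 0 => exact hT
          | 1 => exact hS1
          | 2 => exact hS2)
      refine hsub _ _ ?_ h2
      rintro a (ha | ha | ha)
      · exact Set.mem_iUnion.2 ⟨0, ha⟩
      · exact Set.mem_iUnion.2 ⟨1, ha⟩
      · exact Set.mem_iUnion.2 ⟨2, ha⟩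
    · intro ℓ _ a ha hN E V hV hD hρE ψ ρa hsp K _ _ _
      have ha1 : a ∉ T := fun h => ha (Or.inl h)
      have ha2 : house (a : k) ^ (1 / 2 : ℝ) ≤ ‖σ (a : k)‖ := by
        by_contra h
        exact ha (Or.inr (Or.inl (not_le.1 h)))
      have ha3 : (H1 : ℝ) < house (a : k) := by
        by_contra h
        exact ha (Or.inr (Or.inr (not_lt.1 h)))
      have hmx : max (max H0 1) (max R0 0 ^ 2) < house (a : k) := lt_of_le_of_lt hH1 ha3
      have h3 : H0 ≤ house (a : k) := ((le_max_left _ _).trans (le_max_left _ _)).trans hmx.le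
      have h4 : max R0 0 ^ 2 ≤ house (a : k) := (le_max_right _ _).trans hmx.le
      have h5' : R0 ≤ ‖σ (a : k)‖ := by
        refine le_trans ?_ ha2
        refine (le_max_left R0 0).trans ?_
        rw [← Real.sqrt_eq_rpow]
        exact Real.le_sqrt_of_sq_le h4
      have hx := hH0 a h3 ha2
      have hMT := hR0 (σ (a : k)) hx h5' E V hV.1 hV.2.2 hD K
      have h6 := hS' ℓ a (fun h => ha1 (hTN ℓ a h hN)) ψ ρa hsp K
      rw [h6, hMT]
      exact lad_all.{u, 0} d E ℚ_[ℓ] GT (ρ ℓ) (symE hw hV.1) hV.1.nondeg h5 hρE K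

end Pool.Agent.MTO.H20
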